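import Pool.Agent.LibTH86.Lim
import Pool.Agent.LibSX15.TWF
import Pool.Agent.LibEX15.EAF

/-!
MP_1156f3_nt: `θ_3 ≤ 31/25`, `θ_4 ≤ 3/2 - 1/54`, `θ_5 ≤ 7/4 - 1/108`, `θ_6 < 2` for the optimal exponent
`θ_k` of the error term in the asymptotic formula for the `2k`-th moment of the zeta function.
-/

set_option autoImplicit false

namespace Pool.Agent.Results.MP_1156f3_nt.ThetaBounds

open Pool.Agent

private theorem aux {k : ℕ} {a : ℝ} (h3 : 3 ≤ k) (h5 : k ≤ 5) (ha : 1 ≤ a)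
    (h : 1 + ((2 * k : ℝ) - 4) / 8 -
      min (((2 * k : ℝ) - 4) / 200) ((12 - (2 * k : ℝ)) / 216) = a) :
    LibTH86.theta k ≤ (a : EReal) := by
  have h3' : (3 : ℝ) ≤ k := by exact_mod_cast h3
  have h5' : (k : ℝ) ≤ 5 := by exact_mod_cast h5
  refine LibTH86.theta_le ha fun η hη => ?_
  obtain ⟨T0, -, hT⟩ := LibSX15.moments3 ((2 * k : ℕ) : ℝ) (by push_cast; linarith)
    (by push_cast; linarith) η hη
  refine ⟨T0, fun T hT' => ?_⟩
  have h1 := hT T hT'
  have e : (1 : ℝ) + (((2 * k : ℕ) : ℝ) - 4) / 8 -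
      min ((((2 * k : ℕ) : ℝ) - 4) / 200) ((12 - ((2 * k : ℕ) : ℝ)) / 216) + η = a + η := by
    rw [← h]
    push_cast
    ring
  rw [e] at h1
  simpa only [LibTH86.I, Real.rpow_natCast] using h1

theorem result :
    LibTH86.theta 3 ≤ ((31 / 25 : ℝ) : EReal) ∧
    LibTH86.theta 4 ≤ ((3 / 2 - 1 / 54 : ℝ) : EReal) ∧
    LibTH86.theta 5 ≤ ((7 / 4 - 1 / 108 : ℝ) : EReal) ∧
    LibTH86.theta 6 < ((2 : ℝ) : EReal) := by
  refine ⟨aux (by norm_num) (by norm_num) (by norm_num) ?_,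
    aux (by norm_num) (by norm_num) (by norm_num) ?_,
    aux (by norm_num) (by norm_num) (by norm_num) ?_, ?_⟩
  · rw [min_eq_left (by norm_num)]
    norm_num
  · rw [min_eq_right (by norm_num)]
    norm_num
  · rw [min_eq_right (by norm_num)]
    norm_num
  · obtain ⟨c, hc, hm⟩ := LibSX15.moments12
    obtain ⟨δ, T0, hδ, -, h⟩ := hm ((2 * 6 : ℕ) : ℝ) (by push_cast; norm_num)
      (by push_cast; linarith)
    refine LibTH86.theta_lt (T₀ := T0) hδ (by norm_num) fun T hT => ?_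
    have h1 := h T hT
    rw [show (1 : ℝ) + (((2 * 6 : ℕ) : ℝ) - 4) / 8 - δ = 2 - δ by push_cast; ring] at h1
    simpa only [LibTH86.I, Real.rpow_natCast] using h1

end Pool.Agent.Results.MP_1156f3_nt.ThetaBounds
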